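import Pool.Agent.helper25.PP.Spec

set_option autoImplicit false

namespace PP

open Finset SimpleGraph CT

section
variable {V : Type} [Fintype V] [DecidableEq V]

open Classical in
/-- The good directed edges. -/
noncomputable def PA1_I (H : Finset (Sym2 V)) (x y : V) (G : SimpleGraph V) : Finset (V × V) :=
  (inn G univ).filter fun p => p.1 ∉ insert x (nb G x) ∧ p.2 ∉ insert y (nb G y) ∧ s(p.1, p.2) ∉ H

/-- The switchings. -/
noncomputable def PA1_A (H : Finset (Sym2 V)) (x y : V) (G : SimpleGraph V) :
    Finset (V × V × V × V) :=
  (PA1_I H x y G).image fun p => (x, y, p.1, p.2)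

/-- The reverse switchings. -/
noncomputable def PA1_B (x y : V) (G : SimpleGraph V) : Finset (V × V × V × V) :=
  ((nb G x) ×ˢ (nb G y)).image fun p => (x, p.1, y, p.2)

omit [Fintype V] in
theorem PA1_three (H : Finset (Sym2 V)) (I : Finset (V × V)) :
    (I.filter fun p => s(p.1, p.2) ∈ H).card ≤ 2 * H.card := by
  apply Finset.card_le_mul_card_image_of_maps_to (f := fun p : V × V => s(p.1, p.2))
  · intro p hp
    exact (Finset.mem_filter.mp hp).2
  · intro e _
    induction e using Sym2.ind with
    | _ u v =>
      calc _ ≤ ({(u, v), (v, u)} : Finset (V × V)).card := by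
            apply Finset.card_le_card
            intro p hp
            rw [Finset.mem_filter] at hp
            have h := hp.2
            rw [Sym2.eq_iff] at h
            rcases h with ⟨h1, h2⟩ | ⟨h1, h2⟩
            · rw [Finset.mem_insert]
              left
              exact Prod.ext h1 h2
            · rw [Finset.mem_insert, Finset.mem_singleton]
              right
              exact Prod.ext h1 h2
        _ ≤ 2 := Finset.card_le_two

theorem PA1_card (h2 : NB4_stmt) (H : Finset (Sym2 V)) (x y : V) (G : SimpleGraph V)
    (hG : FourRegular G) :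
    4 * Fintype.card V - 40 - 2 * H.card ≤ (PA1_A H x y G).card := by
  classical
  obtain ⟨h3, h4⟩ := h2 V G
  obtain ⟨h5, h6, h7⟩ := h4 hG
  have h8 := h3.mp hG
  have hA : (PA1_A H x y G).card = (PA1_I H x y G).card := by
    unfold PA1_A
    apply Finset.card_image_of_injective
    intro p q hpq
    simp only [Prod.mk.injEq] at hpq
    exact Prod.ext hpq.2.2.1 hpq.2.2.2
  have hx : (insert x (nb G x)).card ≤ 5 := (Finset.card_insert_le _ _).trans (by rw [h8 x])
  have hy : (insert y (nb G y)).card ≤ 5 := (Finset.card_insert_le _ _).trans (by rw [h8 y])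
  have hsub : inn G univ ⊆ PA1_I H x y G ∪
      (((inn G univ).filter fun p => p.1 ∈ insert x (nb G x)) ∪
       (((inn G univ).filter fun p => p.2 ∈ insert y (nb G y)) ∪
        ((inn G univ).filter fun p => s(p.1, p.2) ∈ H))) := by
    intro p hp
    simp only [PA1_I, Finset.mem_union, Finset.mem_filter, hp, true_and]
    tauto
  have h9 := Finset.card_le_card hsub
  have e1 : ((inn G univ).filter fun p => p.1 ∈ insert x (nb G x)).card ≤ 20 := by
    have := h6 (insert x (nb G x))
    calc _ = 4 * (insert x (nb G x)).card := by
          convert this using 2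
      _ ≤ 20 := by omega
  have e2 : ((inn G univ).filter fun p => p.2 ∈ insert y (nb G y)).card ≤ 20 := by
    have := h7 (insert y (nb G y))
    calc _ = 4 * (insert y (nb G y)).card := by
          convert this using 2
      _ ≤ 20 := by omega
  have e3 := PA1_three H (inn G univ)
  have h10 : (inn G univ).card ≤ (PA1_I H x y G).card + (20 + (20 + 2 * H.card)) := by
    refine h9.trans ?_
    refine (Finset.card_union_le _ _).trans ?_
    apply Nat.add_le_add_left
    refine (Finset.card_union_le _ _).trans ?_
    apply Nat.add_le_add e1
    refine (Finset.card_union_le _ _).trans ?_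
    exact Nat.add_le_add e2 e3
  rw [h5] at h10
  rw [hA]
  omega

end

theorem PA1 (h1 : DBL_stmt) (h2 : NB4_stmt) : PA1_stmt := by
  intro V _ _ H x y hxy
  by_cases hne : x = y
  · have h0 : N H = 0 := by
      unfold N cc
      rw [Finset.card_eq_zero, Finset.eq_empty_iff_forall_notMem]
      intro G hG
      rw [mem_cc] at hG
      have := hG.2 _ hxy
      rw [hne, SimpleGraph.mem_edgeSet] at this
      exact G.loopless.irrefl y this
    rw [h0]
    simp
  · unfold N
    apply h1 V _ _ (PA1_A H x y) (PA1_B x y)
    · intro G hG _
      exact PA1_card h2 H x y G hG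
    · intro G hG _
      have h8 := (h2 V G).1.mp hG
      unfold PA1_B
      refine Finset.card_image_le.trans ?_
      rw [Finset.card_product, h8, h8]
    · intro G hG hP a b c d hm
      unfold PA1_A PA1_I at hm
      rw [Finset.mem_image] at hm
      obtain ⟨p, hp, he⟩ := hm
      simp only [Prod.mk.injEq] at he
      obtain ⟨ha, hb, hc, hd⟩ := he
      subst ha hb hc hd
      rw [Finset.mem_filter, mem_ein] at hp
      obtain ⟨⟨_, hadj⟩, hx, hy, hH⟩ := hp
      rw [Finset.mem_insert, not_or, mem_nb] at hx
      rw [Finset.mem_insert, not_or, mem_nb] at hy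
      have hxyG : G.Adj x y := by
        have := hP _ hxy
        rwa [SimpleGraph.mem_edgeSet] at this
      refine ⟨⟨hxyG, hadj, Ne.symm hx.1, Ne.symm hy.1, hx.2, hy.2⟩, ?_, ?_⟩
      · intro e he
        rw [Finset.mem_erase] at he
        induction e using Sym2.ind with
        | _ u v =>
          rw [SimpleGraph.mem_edgeSet]
          left
          refine ⟨?_, he.1, ?_⟩
          · have := hP _ he.2
            rwa [SimpleGraph.mem_edgeSet] at this
          · intro h
            apply hH
            rw [← h]
            exact he.2
      · unfold PA1_B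
        rw [Finset.mem_image]
        refine ⟨(p.1, p.2), ?_, rfl⟩
        rw [Finset.mem_product, mem_nb, mem_nb]
        constructor
        · right
          exact ⟨Ne.symm hx.1, Or.inl rfl⟩
        · right
          exact ⟨Ne.symm hy.1, Or.inr rfl⟩

end PP
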